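import Pool.Agent.Q6.Add.Systems

/-!
# MP_555c3f_al : reduced size of unique solutions of additive equation systems
-/

namespace Pool.Agent.Results.MP_555c3f_al.NumDenBound

/-- `x` solves the system consisting of the equations `x i = 1` for `i ∈ U` and
`x i + x j = x k` for `(i, j, k) ∈ A`. -/
def IsSolution {n : ℕ} (U : Set (Fin n)) (A : Set (Fin n × Fin n × Fin n)) (x : Fin n → ℂ) :
    Prop :=
  (∀ i ∈ U, x i = 1) ∧ ∀ t ∈ A, x t.1 + x t.2.1 = x t.2.2

/-- If a system of equations `x i = 1` and `x i + x j = x k` in `n` unknowns has a unique complex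
solution, then the numerators and denominators of its (rational) coordinates are at most
`2 ^ (n - 1)` in absolute value. -/
theorem result (n : ℕ) (U : Set (Fin n)) (A : Set (Fin n × Fin n × Fin n)) (x : Fin n → ℂ)
    (hx : IsSolution U A x) (huniq : ∀ y : Fin n → ℂ, IsSolution U A y → y = x) (i : Fin n) :
    ∃ r : ℚ, x i = (r : ℂ) ∧ |r.num| ≤ 2 ^ (n - 1) ∧ (r.den : ℤ) ≤ 2 ^ (n - 1) := by
  by_cases hU : ∃ u0, u0 ∈ U
  · obtain ⟨u0, hu0⟩ := hU
    obtain ⟨N, D, hD, hDb, hNb, h1, h2⟩ := Q6.Add.rational_solution U A u0 hu0 x hx.1 hx.2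
    have hsol : IsSolution U A (fun j => (((N j : ℚ) / D : ℚ) : ℂ)) := by
      constructor
      · intro j hj
        show (((N j : ℚ) / D : ℚ) : ℂ) = 1
        rw [h1 j hj]
        norm_num
      · intro t ht
        show (((N t.1 : ℚ) / D : ℚ) : ℂ) + (((N t.2.1 : ℚ) / D : ℚ) : ℂ) =
          (((N t.2.2 : ℚ) / D : ℚ) : ℂ)
        rw [← h2 t ht, Rat.cast_add]
    have hxy := congrFun (huniq _ hsol) i
    refine ⟨(N i : ℚ) / D, hxy.symm, ?_, ?_⟩
    · have h3 : ((N i : ℚ) / D).num ∣ N i := by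
        rw [← Rat.divInt_eq_div]
        exact Rat.num_dvd (N i) hD
      by_cases hN : N i = 0
      · rw [hN]
        simp
      · have h4 : |((N i : ℚ) / D).num| ∣ |N i| := (abs_dvd_abs _ _).2 h3
        exact (Int.le_of_dvd (abs_pos.2 hN) h4).trans (hNb i)
    · have h3 : (((N i : ℚ) / D).den : ℤ) ∣ D := by
        rw [← Rat.divInt_eq_div]
        exact Rat.den_dvd (N i) D
      exact (Int.le_of_dvd (abs_pos.2 hD) ((dvd_abs _ _).2 h3)).trans hDb
  · push Not at hU
    have hsol : IsSolution U A (fun _ => 0) :=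
      ⟨fun j hj => absurd hj (hU j), fun t _ => by simp⟩
    have hxy := congrFun (huniq _ hsol) i
    refine ⟨0, ?_, ?_, ?_⟩
    · rw [← hxy]; norm_num
    · simp
    · have : (1 : ℤ) ≤ 2 ^ (n - 1) := one_le_pow₀ (by norm_num)
      simpa using this

end Pool.Agent.Results.MP_555c3f_al.NumDenBound
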